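import Pool.Agent.Y191.DimGe
import Pool.Agent.TH585.SV.Fib9

/-!
Highly ramified linear systems with forms along the fibres, and arrangements along the fibres.
-/

set_option autoImplicit false
set_option linter.overlappingInstances false

open FF Pool.Agent.W602.GT Pool.Agent.W603.LV Pool.Agent.W619.PQ Pool.Agent.W619.Y
open Pool.Agent.TH585.SV Pool.Agent.Y172 Pool.Agent.Y191

namespace Pool.Agent.X180.Iso

variable {d e n q c : ℕ} {K : Type} [Field K] [Algebra ℂ K]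

/-- **Linear systems with forms along the fibres.** -/
theorem sys_kod {lam : ℕ} (hd : 1 ≤ d) (hdn : d ≤ n)
    (hK : Algebra.trdeg ℂ K = (d + e : ℕ)) {V : Submodule ℂ K}
    (hV : Algebra.trdeg ℂ (rf V) = d) {φ : Fin q → K} (hφ0 : ∀ i, φ i ≠ 0)
    (hφ : Submodule.span ℂ (Set.range φ) = V) {γ : Fin q → Fin c} (hγ : Dcp n V φ γ)
    (hc : ∀ γ' : Fin q → Fin (c + 1), ¬ Dcp n V φ γ') {R : ℕ}
    (hR : R + c = n + 3 ∨
      (c = 1 ∧ (∃ τ : Fin (n + 3) → Fin q, ∀ i j, i ≠ j → ∀ t : ℂ, φ (τ i) ≠ t • φ (τ j)) ∧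
        R = n + 1)) {s : ℝ}
    (hs : (R : ℝ) * (((n : ℝ) - d + 1) * ((n : ℝ) - d + 2)) ≤ 2 * s) {X : Set (Place ℂ K)}
    (h : ∀ P ∈ X, Divisorial (d + e) P → ∀ a : ℤ, (∀ f ∈ V, f = 0 ∨ a ≤ P.ord f) →
      (∃ f ∈ V, f ≠ 0 ∧ P.ord f = a) → (∃ i, P.ord (φ i) ≠ a) →
      ∃ i i', γ i' = γ i ∧ s ≤ ((P.ord (φ i) - P.ord (φ i') : ℤ) : ℝ))
    (hθ : ∃ m : ℕ, 0 < m ∧ ∃ θ : Fin (lam + 1) → (Fin e → Derivation (rf V) K K) → K,
      (∀ b, FibSec (d + e) m X (fun _ => 0) (rf V) (θ b)) ∧ ∃ G, θ 0 G ≠ 0 ∧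
        AlgebraicIndependent (rf V) (fun i : Fin lam => θ i.succ G / θ 0 G)) :
    Pool.Agent.Y191.KodairaGe (d + e) X (fun _ => 0) lam ∧
    ((R : ℝ) * (((n : ℝ) - d + 1) * ((n : ℝ) - d + 2)) < 2 * s →
        ∀ κ : ℕ, κ + c = d + 1 →
          Pool.Agent.Y191.KodairaGe (d + e) X (fun _ => 0) (κ + lam)) := by
  obtain ⟨m, hm, θ, hθ, hne⟩ := hθ
  obtain ⟨k, rfl⟩ := Nat.exists_eq_add_of_le hdn
  have e1 : ((d + k : ℕ) : ℝ) - d = (k : ℝ) := by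
    push_cast
    ring
  rw [e1] at hs ⊢
  obtain ⟨h3, h4⟩ := Pool.Agent.TH585.SV.lin_fib (k := k) (lam := lam) hd rfl hK (V := V) hV hφ0 hφ
    hγ hc hR X (fun _ => 0) (fun _ => 0) (fun _ => 0) (fun _ _ => le_rfl)
    (fun _ _ => by simp) hs (fun P hPX hPd a ha hb hc => by
      obtain ⟨i, i', h5, h6⟩ := h P hPX hPd a ha hb hc
      exact ⟨i, i', h5, by simpa using h6⟩) hm (θ := θ) hθ hne
  exact ⟨h3, fun hlt κ hκ => h4 κ hκ hlt⟩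

theorem trdeg_rel' {L : IntermediateField ℂ K} (hK : Algebra.trdeg ℂ K = (d + e : ℕ))
    (hL : Algebra.trdeg ℂ L = d) : Algebra.trdeg L K = e := by
  have h1 := _root_.trdeg_add_eq ℂ L (A := K)
  rw [hK, hL] at h1
  push_cast at h1
  exact Cardinal.eq_of_add_eq_add_left h1 Cardinal.natCast_lt_aleph0

end Pool.Agent.X180.Iso
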