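import Pool.Agent.X180.Iso.Sys

/-!
Highly ramified linear systems with forms along the fibres, for pairs.
-/

set_option autoImplicit false
set_option linter.overlappingInstances false

open FF Pool.Agent.W602.GT Pool.Agent.W603.LV Pool.Agent.W619.PQ Pool.Agent.W619.Y
open Pool.Agent.TH585.SV Pool.Agent.Y172 Pool.Agent.Y191

namespace Pool.Agent.X180.Iso

variable {d e n q c : ℕ} {K : Type} [Field K] [Algebra ℂ K]

open Classical in
/-- the boundary along the prime divisors which are trivial on `L` -/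
noncomputable def hor (L : IntermediateField ℂ K) (δ : Place ℂ K → ℝ) (P : Place ℂ K) : ℝ :=
  if ∀ f ∈ L, f ≠ 0 → P.ord f = 0 then δ P else 0

open Classical in
/-- the boundary along the prime divisors which are not trivial on `L` -/
noncomputable def ver (L : IntermediateField ℂ K) (δ : Place ℂ K → ℝ) (P : Place ℂ K) : ℝ :=
  if ∀ f ∈ L, f ≠ 0 → P.ord f = 0 then 0 else δ P

/-- **Linear systems with forms along the fibres**, for pairs. -/
theorem sys_pair {lam : ℕ} (hd : 1 ≤ d) (hdn : d ≤ n)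
    (hK : Algebra.trdeg ℂ K = (d + e : ℕ)) {V : Submodule ℂ K}
    (hV : Algebra.trdeg ℂ (rf V) = d) {φ : Fin q → K} (hφ0 : ∀ i, φ i ≠ 0)
    (hφ : Submodule.span ℂ (Set.range φ) = V) {γ : Fin q → Fin c} (hγ : Dcp n V φ γ)
    (hc : ∀ γ' : Fin q → Fin (c + 1), ¬ Dcp n V φ γ') {R : ℕ}
    (hR : R + c = n + 3 ∨
      (c = 1 ∧ (∃ τ : Fin (n + 3) → Fin q, ∀ i j, i ≠ j → ∀ t : ℂ, φ (τ i) ≠ t • φ (τ j)) ∧
        R = n + 1)) {s : ℝ}
    (hs : (R : ℝ) * (((n : ℝ) - d + 1) * ((n : ℝ) - d + 2)) ≤ 2 * s) {X : Set (Place ℂ K)}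
    {δ : Place ℂ K → ℝ} (hδ : ∀ P ∈ X, 0 ≤ δ P)
    (h : ∀ P ∈ X, Divisorial (d + e) P → ∀ a : ℤ, (∀ f ∈ V, f = 0 ∨ a ≤ P.ord f) →
      (∃ f ∈ V, f ≠ 0 ∧ P.ord f = a) → (∃ i, P.ord (φ i) ≠ a) →
      ∃ i i', γ i' = γ i ∧ s * (1 - δ P) ≤ ((P.ord (φ i) - P.ord (φ i') : ℤ) : ℝ))
    (hθ : ∃ m : ℕ, 0 < m ∧ ∃ θ : Fin (lam + 1) → (Fin e → Derivation (rf V) K K) → K,
      (∀ b, FibSec (d + e) m X (hor (rf V) δ) (rf V) (θ b)) ∧ ∃ G, θ 0 G ≠ 0 ∧
        AlgebraicIndependent (rf V) (fun i : Fin lam => θ i.succ G / θ 0 G)) :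
    Pool.Agent.Y191.KodairaGe (d + e) X δ lam ∧
    ((R : ℝ) * (((n : ℝ) - d + 1) * ((n : ℝ) - d + 2)) < 2 * s →
        ∀ κ : ℕ, κ + c = d + 1 →
          Pool.Agent.Y191.KodairaGe (d + e) X δ (κ + lam)) := by
  obtain ⟨m, hm, θ, hθ, hne⟩ := hθ
  obtain ⟨k, rfl⟩ := Nat.exists_eq_add_of_le hdn
  have e1 : ((d + k : ℕ) : ℝ) - d = (k : ℝ) := by
    push_cast
    ring
  rw [e1] at hs ⊢
  have h1 : ∀ P ∈ X, 0 ≤ ver (rf V) δ P := fun P hP => by
    unfold ver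
    split_ifs
    · exact le_rfl
    · exact hδ P hP
  have h2 : ∀ P ∈ X, ver (rf V) δ P + hor (rf V) δ P ≤ δ P := fun P _ => by
    unfold ver hor
    split_ifs <;> simp
  obtain ⟨h3, h4⟩ := Pool.Agent.TH585.SV.lin_fib (k := k) (lam := lam) hd rfl hK (V := V) hV hφ0 hφ
    hγ hc hR X (ver (rf V) δ) (hor (rf V) δ) δ h1 h2 hs (fun P hPX hPd a ha hb hc => by
      obtain ⟨i, i', h5, h6⟩ := h P hPX hPd a ha hb hc
      refine ⟨i, i', h5, ?_⟩
      have h7 : ¬ ∀ f ∈ rf V, f ≠ 0 → P.ord f = 0 := by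
        intro h8
        obtain ⟨f, hf, hf0, hfa⟩ := hb
        obtain ⟨j, hj⟩ := hc
        have h9 : φ j ∈ V := by
          rw [← hφ]
          exact Submodule.subset_span ⟨j, rfl⟩
        have h10 := h8 (φ j / f) (IntermediateField.subset_adjoin _ _ ⟨φ j, h9, f, hf, rfl⟩)
          (div_ne_zero (hφ0 j) hf0)
        rw [P.ord_div (hφ0 j) hf0, hfa] at h10
        omega
      rw [ver, if_neg h7]
      exact h6) hm (θ := θ) hθ hne
  exact ⟨h3, fun hlt κ hκ => h4 κ hκ hlt⟩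

theorem lcHor_hor {K' : Type} [Field K'] [Algebra ℂ K'] [Algebra K K'] [IsScalarTower ℂ K K']
    {L : IntermediateField ℂ K} {c : ℕ} {r s : Fin c → ℕ}
    {A : ∀ j, Fin (s j) → Fin (r j + 1) → K'} {u : (Σ j, Fin (r j)) → K'}
    {w : ∀ j, Fin (s j) → ℚ} {X : Set (Place ℂ K)} {δ : Place ℂ K → ℝ}
    (h : LcHor L A u w X δ) : LcHor L A u w X (hor L δ) := by
  intro P hP hPL
  rw [hor, if_pos hPL]
  exact h P hP hPL

end Pool.Agent.X180.Iso
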