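import Pool.Agent.X180.Iso.Main
import Pool.Agent.W308.PG.YLOC
import Pool.Agent.TH585.SV.Uni2

/-!
Differentials of a subfield as forms along the fibres.
-/

set_option autoImplicit false
set_option linter.overlappingInstances false

open FF Pool.Agent.W602.GT Pool.Agent.W603.LV Pool.Agent.W619.PQ Pool.Agent.W619.Y
open Pool.Agent.TH585.SV Pool.Agent.Y172 Pool.Agent.Y191

namespace Pool.Agent.X180.Iso

section pull

variable {K : Type} [Field K] [Algebra ℂ K] (M : IntermediateField ℂ K)

/-- `ω'` is the pull back of `ω` -/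
def Pull (ω : Derivation ℂ M M →ₗ[M] M) (ω' : Derivation ℂ K K →ₗ[K] K) : Prop :=
  ∀ (D : Derivation ℂ M M) (G : Derivation ℂ K K),
    (∀ m : M, G (m : K) = ((D m : M) : K)) → ω' G = ((ω D : M) : K)

variable {M} {f : ℕ}

theorem lift_frame {y : Fin f → M} (hy : IsTranscendenceBasis ℂ y)
    {E : Fin f → Derivation ℂ M M} (hE : ∀ i j, E i (y j) = if i = j then 1 else 0) :
    ∃ E' : Fin f → Derivation ℂ K K, ∀ i (m : M), E' i (m : K) = ((E i m : M) : K) := by
  classical
  have hyK : AlgebraicIndependent ℂ (fun j => ((y j : M) : K)) := hy.1.map' (f := M.val)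
    M.val.injective
  obtain ⟨t, ht, htb⟩ := exists_isTranscendenceBasis_superset (R := ℂ) hyK.coe_range
  have h1 : ∀ i : Fin f, ∃ D : Derivation ℂ K K, ∀ x : t, D (x : K) =
      if (x : K) = ((y i : M) : K) then 1 else 0 := fun i =>
    exists_der (fun x : t => (x : K)) htb (fun x => if (x : K) = ((y i : M) : K) then 1 else 0)
  choose D hD using h1
  refine ⟨D, fun i m => ?_⟩
  have h2 := Pool.Agent.W73.PG.PULL.chain (L := K) y hy E hE (D i) m
  have h3 : ∀ c, D i (algebraMap M K (y c)) = if c = i then 1 else 0 := by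
    intro c
    have h4 := hD i ⟨((y c : M) : K), ht ⟨c, rfl⟩⟩
    change D i ((y c : M) : K) = _
    rw [h4]
    by_cases hc : c = i
    · subst hc
      simp
    · rw [if_neg hc, if_neg]
      intro h5
      exact hc (hyK.injective h5)
  rw [Finset.sum_eq_single i] at h2
  · rw [h3, if_pos rfl, one_mul] at h2
    exact h2
  · intro c _ hc
    rw [h3, if_neg hc, zero_mul]
  · intro h
    exact absurd (Finset.mem_univ i) h

theorem pull_formula {ω : Derivation ℂ M M →ₗ[M] M} {ω' : Derivation ℂ K K →ₗ[K] K}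
    (hω : Pull M ω ω') {y : Fin f → M} (hy : IsTranscendenceBasis ℂ y)
    {E : Fin f → Derivation ℂ M M} (hE : ∀ i j, E i (y j) = if i = j then 1 else 0)
    (G : Derivation ℂ K K) : ω' G = ∑ j, G ((y j : M) : K) * ((ω (E j) : M) : K) := by
  obtain ⟨E', hE'⟩ := lift_frame (K := K) hy hE
  have h1 : ω' (G - ∑ j, G ((y j : M) : K) • E' j) = ((ω 0 : M) : K) := by
    refine hω 0 _ fun m => ?_
    rw [Derivation.sub_apply, sum_smul_apply]
    have h2 := Pool.Agent.W73.PG.PULL.chain (L := K) y hy E hE G m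
    have h3 : G (m : K) = ∑ j, G ((y j : M) : K) * E' j (m : K) := by
      simp only [hE']
      exact h2
    rw [h3, sub_self]
    rfl
  rw [map_sub, map_sum, map_zero] at h1
  rw [sub_eq_zero.1 h1]
  refine Finset.sum_congr rfl fun j _ => ?_
  rw [map_smul, smul_eq_mul, hω (E j) (E' j) (hE' j)]

/-- `ω` is regular -/
def RegForm (f : ℕ) (ω : Derivation ℂ M M →ₗ[M] M) : Prop :=
  ∀ u : Place ℂ M, Divisorial f u → ∀ D, DerReg u D → u.Reg (ω D)

/-- the pull back of a regular form is regular -/
theorem pull_reg {N : ℕ} (hN : Algebra.trdeg ℂ K = N) (hM : Algebra.trdeg ℂ M = f)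
    [Algebra.EssFiniteType ℂ M] {ω : Derivation ℂ M M →ₗ[M] M}
    {ω' : Derivation ℂ K K →ₗ[K] K} (hr : RegForm f ω) (hω : Pull M ω ω') {w : Place ℂ K}
    (hw : Divisorial N w) {G : Derivation ℂ K K} (hG : DerReg w G) : w.Reg (ω' G) := by
  classical
  by_cases htriv : ∃ f : M, w.ord (algebraMap M K f) ≠ 0
  · obtain ⟨e, u, hu⟩ := exists_over (K := M) w htriv
    have hdiv : IsDivisorial u f := pDIVR ℂ M K f N u w e hM hN hu hw
    obtain ⟨y', E', i0, hy', hE', -, hyr, hpres⟩ := pFRAME ℂ M f hM (fun y hy => fin_over y hy)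
      u hdiv
    have hregL : ∀ f : M, u.Reg f → w.Reg (algebraMap M K f) := by
      intro f hf
      rcases hf with hf | hf
      · left; rw [hf, map_zero]
      · right
        rw [hu.2]
        exact mul_nonneg (by positivity) hf
    rw [pull_formula hω hy' hE' G]
    have h1 : Ge w 0 (∑ j, G ((y' j : M) : K) * ((ω (E' j) : M) : K)) := by
      refine Ge.sum _ _ fun j _ => ?_
      have h2 : Ge w 0 (G ((y' j : M) : K)) := hG _ (hregL _ (hyr j))
      have h3 : Ge w 0 ((ω (E' j) : M) : K) := hregL _ (hr u hdiv (E' j) (hpres j))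
      simpa using h2.mul h3
    exact h1
  · push Not at htriv
    obtain ⟨y, E, hy, hE⟩ := exists_crd (k := ℂ) (K := M) hM
    rw [pull_formula hω hy hE G]
    have h1 : Ge w 0 (∑ j, G ((y j : M) : K) * ((ω (E j) : M) : K)) := by
      refine Ge.sum _ _ fun j _ => ?_
      have h2 : Ge w 0 (G ((y j : M) : K)) := hG _ (Or.inr (htriv (y j)).ge)
      have h3 : Ge w 0 ((ω (E j) : M) : K) := Or.inr (htriv (ω (E j))).ge
      simpa using h2.mul h3
    exact h1

/-- the minors of the forms -/
noncomputable def minor {e r : ℕ} (U : IntermediateField ℂ K)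
    (ω' : Fin r → Derivation ℂ K K →ₗ[K] K) (I : Fin e → Fin r)
    (G : Fin e → Derivation U K K) : K :=
  (Matrix.of fun a b => ω' (I b) ((G a).restrictScalars ℂ) : Matrix (Fin e) (Fin e) K).det

theorem minor_fib {N e r : ℕ} (hN : Algebra.trdeg ℂ K = N) (hM : Algebra.trdeg ℂ M = f)
    [Algebra.EssFiniteType ℂ M] {ω : Fin r → Derivation ℂ M M →ₗ[M] M}
    {ω' : Fin r → Derivation ℂ K K →ₗ[K] K} (hr : ∀ i, RegForm f (ω i))
    (hω : ∀ i, Pull M (ω i) (ω' i)) (U : IntermediateField ℂ K) (I : Fin e → Fin r)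
    (X : Set (Place ℂ K)) : FibSec N 1 X (fun _ => 0) U (minor U ω' I) := by
  classical
  refine ⟨fun A D => ?_, fun P _ hP G hG => ?_⟩
  · have e1 : (Matrix.of fun a b => ω' (I b) ((∑ j, A a j • D j).restrictScalars ℂ)) =
        A * Matrix.of fun a b => ω' (I b) ((D a).restrictScalars ℂ) := by
      ext a b
      rw [Matrix.of_apply, Matrix.mul_apply]
      have h1 : (∑ j, A a j • D j).restrictScalars ℂ =
          ∑ j, A a j • ((D j).restrictScalars ℂ : Derivation ℂ K K) := by
        ext z
        have l1 : (∑ j, A a j • D j) z = ∑ j, A a j * D j z := sum_smul_apply _ _ _ _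
        have l2 : (∑ j, A a j • ((D j).restrictScalars ℂ : Derivation ℂ K K)) z =
            ∑ j, A a j * D j z := sum_smul_apply _ _ _ _
        exact l1.trans l2.symm
      rw [h1, map_sum]
      refine Finset.sum_congr rfl fun j _ => ?_
      rw [map_smul, smul_eq_mul, Matrix.of_apply]
    change (Matrix.of fun a b => ω' (I b) ((∑ j, A a j • D j).restrictScalars ℂ)).det = _
    rw [e1, Matrix.det_mul, pow_one]
    rfl
  · have h2 : Ge P 0 (minor U ω' I G) := by
      refine ge_det P _ 0 (fun _ _ => 0) (fun a b => ?_) (fun σ => by simp)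
      exact pull_reg hN hM (hr (I b)) (hω (I b)) hP (hG a)
    rcases h2 with h3 | h3
    · exact Or.inl h3
    · right
      simp only [mul_zero, neg_zero]
      exact_mod_cast h3

/-- the forms generate the cotangent space of `M` -/
def Gen {r : ℕ} (ω : Fin r → Derivation ℂ M M →ₗ[M] M) : Prop :=
  ∀ D, (∀ i, ω i D = 0) → D = 0

theorem der_of_gen {r : ℕ} (hM : Algebra.trdeg ℂ M = f)
    {ω : Fin r → Derivation ℂ M M →ₗ[M] M} {ω' : Fin r → Derivation ℂ K K →ₗ[K] K}
    (hgen : Gen ω) (hω : ∀ i, Pull M (ω i) (ω' i)) {G : Derivation ℂ K K}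
    (h0 : ∀ i, ω' i G = 0) (m : M) : G (m : K) = 0 := by
  classical
  obtain ⟨y, E, hy, hE⟩ := exists_crd (k := ℂ) (K := M) hM
  obtain ⟨W, hW⟩ : ∃ W : Matrix (Fin r) (Fin f) M, W = Matrix.of fun i j => ω i (E j) := ⟨_, rfl⟩
  have hinj : Function.Injective W.mulVecLin := by
    rw [← LinearMap.ker_eq_bot, LinearMap.ker_eq_bot']
    intro a ha
    have h1 : ∀ i, ω i (∑ j, a j • E j) = 0 := by
      intro i
      have h2 := congrFun ha i
      rw [Matrix.mulVecLin_apply, Matrix.mulVec, dotProduct] at h2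
      rw [map_sum]
      refine Eq.trans (Finset.sum_congr rfl fun j _ => ?_) h2
      rw [map_smul, smul_eq_mul, hW, Matrix.of_apply, mul_comm]
    have h3 := hgen _ h1
    funext j
    have h4 := congrArg (fun D : Derivation ℂ M M => D (y j)) h3
    simp only [sum_smul_apply, hE, mul_ite, mul_one, mul_zero, Finset.sum_ite_eq',
      Finset.mem_univ, if_true] at h4
    exact h4
  obtain ⟨g, hg⟩ := LinearMap.exists_leftInverse_of_injective W.mulVecLin
    (LinearMap.ker_eq_bot.2 hinj)
  obtain ⟨B, hB⟩ : ∃ B : Matrix (Fin f) (Fin r) M, B = LinearMap.toMatrix' g := ⟨_, rfl⟩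
  have hBW : B * W = 1 := by
    have h1 : LinearMap.toMatrix' (g ∘ₗ W.mulVecLin) = B * W := by
      rw [LinearMap.toMatrix'_comp, ← hB]
      congr 1
      exact LinearMap.toMatrix'_toLin' W
    rw [← h1, hg, LinearMap.toMatrix'_id]
  have hmap : B.map (algebraMap M K) * W.map (algebraMap M K) = 1 := by
    rw [← Matrix.map_mul, hBW]
    exact Matrix.map_one _ (map_zero _) (map_one _)
  have hWg : (W.map (algebraMap M K)).mulVec (fun j => G ((y j : M) : K)) = 0 := by
    funext i
    rw [Matrix.mulVec, dotProduct]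
    refine Eq.trans (Finset.sum_congr rfl fun j _ => ?_)
      ((pull_formula (hω i) hy hE G).symm.trans (h0 i))
    rw [Matrix.map_apply, hW, Matrix.of_apply, mul_comm]
    rfl
  have hy0 : ∀ j, G ((y j : M) : K) = 0 := by
    intro j
    have h1 : (fun j => G ((y j : M) : K)) = 0 := by
      have h2 := congrArg (fun v => (B.map (algebraMap M K)).mulVec v) hWg
      simp only [Matrix.mulVec_mulVec, hmap, Matrix.one_mulVec, Matrix.mulVec_zero] at h2
      exact h2
    exact congrFun h1 j
  have h2 := Pool.Agent.W73.PG.PULL.chain (L := K) y hy E hE G m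
  refine h2.trans (Finset.sum_eq_zero fun c _ => ?_)
  have h3 : G (algebraMap M K (y c)) = 0 := hy0 c
  rw [h3, zero_mul]

/-- **Some minor of the forms does not vanish along the fibres.** -/
theorem exists_minor {r e : ℕ} (U : IntermediateField ℂ K) (hU : Algebra.trdeg U K = e)
    (hM : Algebra.trdeg ℂ M = f) {ω : Fin r → Derivation ℂ M M →ₗ[M] M}
    {ω' : Fin r → Derivation ℂ K K →ₗ[K] K} (hgen : Gen ω) (hω : ∀ i, Pull M (ω i) (ω' i))
    (hdom : ∀ z : K, IsAlgebraic (IntermediateField.adjoin ℂ ((U : Set K) ∪ M)) z) :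
    ∃ (I : Fin e → Fin r) (G : Fin e → Derivation U K K), minor U ω' I G ≠ 0 := by
  classical
  have hcU : CharZero U := charZero_of_injective_algebraMap (algebraMap ℂ U).injective
  obtain ⟨y0, E0, hy0, hE0⟩ := exists_crd (k := U) (K := K) hU
  obtain ⟨v, hv⟩ : ∃ v : Fin r → (Fin e → K), v = fun i j => ω' i ((E0 j).restrictScalars ℂ) :=
    ⟨_, rfl⟩
  have hspan : Submodule.span K (Set.range v) = ⊤ := by
    by_contra hne
    obtain ⟨F, hF0, hF⟩ := Submodule.exists_le_ker_of_lt_top _ (lt_top_iff_ne_top.2 hne)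
    apply hF0
    obtain ⟨a, ha⟩ : ∃ a : Fin e → K, a = fun j => F (Pi.single j 1) := ⟨_, rfl⟩
    have hFa : ∀ x : Fin e → K, F x = ∑ j, x j * a j := by
      intro x
      rw [ha, LinearMap.pi_apply_eq_sum_univ F x]
      refine Finset.sum_congr rfl fun j _ => ?_
      rw [smul_eq_mul]
      congr 2
      funext i
      rw [Pi.single_apply]
      simp [eq_comm]
    obtain ⟨G, hG⟩ : ∃ G : Derivation U K K, G = ∑ j, a j • E0 j := ⟨_, rfl⟩
    have hGr : G.restrictScalars ℂ = ∑ j, a j • ((E0 j).restrictScalars ℂ : Derivation ℂ K K) := by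
      ext z
      have l1 : (∑ j, a j • E0 j) z = ∑ j, a j * E0 j z := sum_smul_apply _ _ _ _
      have l2 : (∑ j, a j • ((E0 j).restrictScalars ℂ : Derivation ℂ K K)) z =
          ∑ j, a j * E0 j z := sum_smul_apply _ _ _ _
      rw [hG]
      exact l1.trans l2.symm
    have h1 : ∀ i, ω' i (G.restrictScalars ℂ) = 0 := by
      intro i
      have h2 : F (v i) = 0 := hF (Submodule.subset_span ⟨i, rfl⟩)
      rw [hFa] at h2
      rw [hGr, map_sum]
      refine Eq.trans (Finset.sum_congr rfl fun j _ => ?_) h2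
      rw [map_smul, smul_eq_mul, hv, mul_comm]
    have h3 : ∀ m : M, G (m : K) = 0 := fun m => der_of_gen hM hgen hω h1 m
    have h4 : ∀ z : K, G z = 0 := by
      intro z
      have h5 : IntermediateField.adjoin ℂ ((U : Set K) ∪ M) ≤ cfield (G.restrictScalars ℂ) := by
        rw [IntermediateField.adjoin_le_iff]
        rintro w (hw | hw)
        · exact G.map_algebraMap (⟨w, hw⟩ : U)
        · exact h3 ⟨w, hw⟩
      exact kills_alg (D := G.restrictScalars ℂ) (fun x hx => h5 hx) (hdom z)
    have h6 : a = 0 := by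
      funext j
      have h7 := h4 (y0 j)
      rw [hG, sum_smul_apply] at h7
      simp only [hE0, mul_ite, mul_one, mul_zero, Finset.sum_ite_eq', Finset.mem_univ,
        if_true] at h7
      exact h7
    ext x
    simp [hFa, h6]
  have hfr : Module.finrank K (Submodule.span K (Set.range v)) = e := by
    rw [hspan, finrank_top, Module.finrank_fin_fun]
  obtain ⟨g, hg1, -, hg3⟩ := Submodule.exists_fun_fin_finrank_span_eq K (Set.range v)
  choose I hI using hg1
  let c : Fin e → Fin (Module.finrank K (Submodule.span K (Set.range v))) := Fin.cast hfr.symm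
  refine ⟨fun b => I (c b), E0, ?_⟩
  have h1 : LinearIndependent K (fun b => v (I (c b))) := by
    have h2 : LinearIndependent K (fun b => g (c b)) := hg3.comp c (Fin.cast_injective _)
    have h3 : (fun b => v (I (c b))) = fun b => g (c b) := by
      funext b
      exact hI (c b)
    rw [h3]
    exact h2
  have h4 : IsUnit (Matrix.of fun b => v (I (c b)) : Matrix (Fin e) (Fin e) K) :=
    Matrix.linearIndependent_rows_iff_isUnit.1 h1
  have h5 : (Matrix.of fun b => v (I (c b)) : Matrix (Fin e) (Fin e) K).det ≠ 0 :=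
    ((Matrix.isUnit_iff_isUnit_det _).1 h4).ne_zero
  have h6 : minor U ω' (fun b => I (c b)) E0 =
      (Matrix.of fun b => v (I (c b)) : Matrix (Fin e) (Fin e) K).det := by
    unfold minor
    rw [← Matrix.det_transpose]
    congr 1
    ext a b
    rw [Matrix.transpose_apply, Matrix.of_apply, Matrix.of_apply, hv]
  rw [h6]
  exact h5

end pull

end Pool.Agent.X180.Iso
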