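import Pool.Agent.X180.Iso.Alb

/-!
Fibrations whose fibres have many differentials from a constant variety.
-/

set_option autoImplicit false
set_option linter.overlappingInstances false

open FF Pool.Agent.W602.GT Pool.Agent.W603.LV Pool.Agent.W619.PQ Pool.Agent.W619.Y
open Pool.Agent.TH585.SV Pool.Agent.Y172 Pool.Agent.Y191

namespace Pool.Agent.X180.Iso

section

variable {K : Type} [Field K] [Algebra ℂ K] {M : IntermediateField ℂ K}

/-- the value of a derivation at an element -/
def evl (z : K) : Derivation ℂ K K →ₗ[K] K where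
  toFun G := G z
  map_add' _ _ := rfl
  map_smul' _ _ := rfl

/-- pull backs exist -/
theorem exists_pull {f : ℕ} (hM : Algebra.trdeg ℂ M = f) (ω : Derivation ℂ M M →ₗ[M] M) :
    ∃ ω' : Derivation ℂ K K →ₗ[K] K, Pull M ω ω' := by
  classical
  obtain ⟨y, E, hy, hE⟩ := exists_crd (k := ℂ) (K := M) hM
  refine ⟨∑ j, ((ω (E j) : M) : K) • evl ((y j : M) : K), fun D G hG => ?_⟩
  have h1 : ω D = ∑ j, D (y j) * ω (E j) := by
    conv_lhs => rw [← Pool.Agent.W73.PG.PULL.expand y hy E hE D]
    rw [map_sum]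
    exact Finset.sum_congr rfl fun j _ => by rw [map_smul, smul_eq_mul]
  rw [h1, LinearMap.sum_apply]
  have h2 : ∀ j, (((ω (E j) : M) : K) • evl ((y j : M) : K)) G =
      ((D (y j) * ω (E j) : M) : K) := by
    intro j
    change ((ω (E j) : M) : K) * G ((y j : M) : K) = ((D (y j) : M) : K) * ((ω (E j) : M) : K)
    rw [hG, mul_comm]
  rw [Finset.sum_congr rfl fun j _ => h2 j]
  exact (map_sum M.val (fun j => D (y j) * ω (E j)) Finset.univ).symm

end

variable {K K' : Type} [Field K] [Field K'] [Algebra ℂ K] [Algebra ℂ K'] [Algebra K K']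
  [IsScalarTower ℂ K K'] [FiniteDimensional K K'] {L : IntermediateField ℂ K}

/-- **Forms along the fibres from differentials of a constant variety.** -/
theorem alb_forms {N e r f lam : ℕ} (hN : Algebra.trdeg ℂ K = N) (hL : Algebra.trdeg L K = e)
    {α : K'} (hα : IsAlgebraic L α) (htop : IntermediateField.adjoin K {α} = ⊤)
    {M : IntermediateField ℂ K'} [Algebra.EssFiniteType ℂ M] (hM : Algebra.trdeg ℂ M = f)
    {ω : Fin r → Derivation ℂ M M →ₗ[M] M} {ω' : Fin r → Derivation ℂ K' K' →ₗ[K'] K'}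
    (hr : ∀ i, RegForm f (ω i)) (hω : ∀ i, Pull M (ω i) (ω' i))
    (I : Fin (lam + 1) → Fin e → Fin r) (G : Fin e → Derivation (upF K' L) K' K')
    (hne : minor (upF K' L) ω' (I 0) G ≠ 0)
    (hind : AlgebraicIndependent L fun i : Fin lam =>
      minor (upF K' L) ω' (I i.succ) G / minor (upF K' L) ω' (I 0) G) (X : Set (Place ℂ K)) :
    ∃ m : ℕ, 0 < m ∧ ∃ θ : Fin (lam + 1) → (Fin e → Derivation L K K) → K,
      (∀ b, FibSec N m X (fun _ => 0) L (θ b)) ∧ ∃ G, θ 0 G ≠ 0 ∧
        AlgebraicIndependent L (fun i : Fin lam => θ i.succ G / θ 0 G) := by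
  classical
  have hN' : Algebra.trdeg ℂ K' = N := by
    have h1 : Algebra.trdeg K K' = 0 := trdeg_eq_zero_iff.2 inferInstance
    rw [← hN, ← _root_.trdeg_add_eq ℂ K (A := K'), h1, add_zero]
  have hα' : IsAlgebraic (upF K' L) α := alg_up hα
  have htop' : ∀ z : K', ∃ p : Polynomial K, z = Polynomial.aeval α p := by
    intro z
    have h1 : z ∈ IntermediateField.adjoin K {α} := by
      rw [htop]
      trivial
    have h2 : z ∈ (IntermediateField.adjoin K {α}).toSubalgebra := h1
    rw [IntermediateField.adjoin_simple_toSubalgebra_of_isAlgebraic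
      (Algebra.IsAlgebraic.isAlgebraic α), Algebra.adjoin_singleton_eq_range_aeval] at h2
    obtain ⟨p, hp⟩ := h2
    exact ⟨p, hp.symm⟩
  exact push one_pos hL hα' htop' (θ' := fun b => minor (upF K' L) ω' (I b))
    (fun b => minor_fib hN' hM hr hω (upF K' L) (I b) _) ⟨G, hne, ai_up.2 hind⟩

theorem trdeg_up {e : ℕ} (hL : Algebra.trdeg L K = e) : Algebra.trdeg (upF K' L) K' = e := by
  have hcL : CharZero L := charZero_of_injective_algebraMap (algebraMap ℂ L).injective
  obtain ⟨y0, E0, hy0, -⟩ := exists_crd hL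
  have h1 := (tb_up (K' := K') (hy0.algebraMap_comp (A := K'))).cardinalMk_eq_trdeg
  rw [← h1]
  simp

end Pool.Agent.X180.Iso
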