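import Pool.Agent.X180.Iso.Free
import Pool.Agent.Y191.Push2
import Pool.Agent.TH585.SV.Fib9
import Pool.Agent.W619.Y.FinN
import Pool.Agent.W619.Y.Parts
import Pool.Agent.W602.GT.KDefs

/-!
Forms of a subfield as forms along the fibres.
-/

set_option autoImplicit false
set_option linter.overlappingInstances false

open FF Pool.Agent.W602.GT Pool.Agent.W603.LV Pool.Agent.W619.PQ Pool.Agent.W619.Y
open Pool.Agent.TH585.SV Pool.Agent.Y172 Pool.Agent.Y191

namespace Pool.Agent.X180.Iso

section

variable {K : Type} [Field K] [Algebra ℂ K]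

/-- forms of a subfield as forms along the fibres -/
theorem fib_of_sub {N e m : ℕ} (hN : Algebra.trdeg ℂ K = N) (U M : IntermediateField ℂ K)
    [Algebra.EssFiniteType ℂ M] (hM : Algebra.trdeg ℂ M = e)
    {η : (Fin e → Derivation ℂ M M) → M} (hη : IsPluriForm ℂ M e m η)
    (hreg : ∀ u : Place ℂ M, IsDivisorial u e → RegularAt u e η)
    {y : Fin e → M} {E : Fin e → Derivation ℂ M M} (hy : IsTranscendenceBasis ℂ y)
    (hE : ∀ i j, E i (y j) = if i = j then 1 else 0) (X : Set (Place ℂ K)) :
    FibSec N m X (fun _ => 0) U (fun G => (Matrix.of fun i j => G i ((y j : M) : K) :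
      Matrix (Fin e) (Fin e) K).det ^ m * ((η E : M) : K)) := by
  classical
  refine ⟨fun A D => ?_, fun P _ hP G hG => ?_⟩
  · have e1 : (Matrix.of fun a b => (∑ j, A a j • D j) ((y b : M) : K)) =
        A * Matrix.of fun a b => D a ((y b : M) : K) := by
      ext a b
      rw [Matrix.of_apply, Matrix.mul_apply, sum_smul_apply]
      rfl
    change (Matrix.of fun a b => (∑ j, A a j • D j) ((y b : M) : K)).det ^ m * _ = _
    rw [e1, Matrix.det_mul, mul_pow, mul_assoc]
  · obtain ⟨Z, z, hz, hZ, hge⟩ := pYLOC ℂ K M e N m hM hN (fun y hy => fin_over y hy) η hη hreg y E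
      hy hE P hP
    have e1 : (Matrix.of fun i j => G i ((y j : M) : K) : Matrix (Fin e) (Fin e) K) =
        (Matrix.of fun i j => G i (z j) : Matrix (Fin e) (Fin e) K) * Z.transpose := by
      ext i j
      rw [Matrix.of_apply, Matrix.mul_apply]
      have h1 := hZ ((G i).restrictScalars ℂ) j
      refine h1.trans (Finset.sum_congr rfl fun c _ => ?_)
      rw [Matrix.of_apply, Matrix.transpose_apply, mul_comm]
      rfl
    have h2 : Ge P 0 ((Matrix.of fun i j => G i (z j) : Matrix (Fin e) (Fin e) K).det) := by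
      refine ge_det P _ 0 (fun _ _ => 0) (fun i j => ?_) (fun σ => by simp)
      exact hG i _ (hz j)
    have h3 := (h2.pow m).mul hge
    have e2 : (Matrix.of fun i j => G i (z j) : Matrix (Fin e) (Fin e) K).det ^ m *
        (((η E : M) : K) * Z.det ^ m) = (Matrix.of fun i j => G i ((y j : M) : K) :
          Matrix (Fin e) (Fin e) K).det ^ m * ((η E : M) : K) := by
      rw [e1, Matrix.det_mul, Matrix.det_transpose]
      ring
    rw [e2] at h3
    rcases h3 with h3 | h3
    · exact Or.inl h3
    · right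
      simp only [mul_zero, neg_zero]
      have h4 : (0 : ℤ) ≤ P.ord ((Matrix.of fun i j => G i ((y j : M) : K) :
          Matrix (Fin e) (Fin e) K).det ^ m * ((η E : M) : K)) := by
        simpa using h3
      exact_mod_cast h4

end

section

variable {K K' : Type} [Field K] [Field K'] [Algebra ℂ K] [Algebra ℂ K'] [Algebra K K']
  [IsScalarTower ℂ K K'] [FiniteDimensional K K'] {L : IntermediateField ℂ K}

/-- **Forms along the fibres from a variety which is dominated by the fibres.** -/
theorem fib_forms {N e lam : ℕ} (hN : Algebra.trdeg ℂ K = N) (hL : Algebra.trdeg L K = e)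
    {α : K'} (hα : IsAlgebraic L α) (htop : IntermediateField.adjoin K {α} = ⊤)
    (M : IntermediateField ℂ K') [Algebra.EssFiniteType ℂ M] (hM : Algebra.trdeg ℂ M = e)
    (hdom : ∀ z : K', IsAlgebraic (IntermediateField.adjoin ℂ ((upF K' L : Set K') ∪ M)) z)
    (hk : Pool.Agent.W602.GT.KodGe ℂ M e (fun _ => False) lam) (X : Set (Place ℂ K)) :
    ∃ m : ℕ, 0 < m ∧ ∃ θ : Fin (lam + 1) → (Fin e → Derivation L K K) → K,
      (∀ b, FibSec N m X (fun _ => 0) L (θ b)) ∧ ∃ G, θ 0 G ≠ 0 ∧
        AlgebraicIndependent L (fun i : Fin lam => θ i.succ G / θ 0 G) := by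
  classical
  have hcL : CharZero L := charZero_of_injective_algebraMap (algebraMap ℂ L).injective
  have hcU : CharZero (upF K' L) :=
    charZero_of_injective_algebraMap (algebraMap ℂ (upF K' L)).injective
  have hN' : Algebra.trdeg ℂ K' = N := by
    have h1 : Algebra.trdeg K K' = 0 := trdeg_eq_zero_iff.2 inferInstance
    rw [← hN, ← _root_.trdeg_add_eq ℂ K (A := K'), h1, add_zero]
  obtain ⟨y0, E0, hy0, -⟩ := exists_crd hL
  have hU : Algebra.trdeg (upF K' L) K' = e := by
    have h1 := (tb_up (K' := K') (hy0.algebraMap_comp (A := K'))).cardinalMk_eq_trdeg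
    rw [← h1]
    simp
  obtain ⟨m, hm, ω, hω, D, hD0, hDi⟩ := hk
  obtain ⟨y, E, hy, hE⟩ := exists_crd (k := ℂ) (K := M) hM
  have hyU : IsTranscendenceBasis (upF K' L) (fun j => ((y j : M) : K')) :=
    basis_up (upF K' L) M hU hy hdom
  choose E' hE1 using fun i => exists_dual (k := upF K' L) (fun j => ((y j : M) : K')) hyU i
  have hE' : ∀ i j, E' i ((y j : M) : K') = if i = j then 1 else 0 := by
    intro i j
    rw [hE1 i j]
    by_cases h : i = j
    · subst h; simp
    · rw [if_neg h, if_neg (Ne.symm h)]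
  have hval : ∀ b, ω b D = (Matrix.of fun i j => D i (y j)).det ^ m * ω b E := fun b =>
    pluri_coord hy hE (hω b).1 D
  have hd0 : (Matrix.of fun i j => D i (y j)).det ^ m ≠ 0 := by
    intro h0
    apply hD0
    rw [hval, h0, zero_mul]
  have hW0 : ω 0 E ≠ 0 := by
    intro h0
    apply hD0
    rw [hval, h0, mul_zero]
  have hind : AlgebraicIndependent ℂ (fun i : Fin lam => ω i.succ E / ω 0 E) := by
    have e1 : (fun i : Fin lam => ω i.succ E / ω 0 E) = fun i : Fin lam => ω i.succ D / ω 0 D := by
      funext i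
      rw [hval i.succ, hval 0, mul_div_mul_left _ _ hd0]
    rw [e1]
    exact hDi
  have hdet : (Matrix.of fun i j => E' i ((y j : M) : K') : Matrix (Fin e) (Fin e) K').det = 1 := by
    have h1 : (Matrix.of fun i j => E' i ((y j : M) : K') : Matrix (Fin e) (Fin e) K') = 1 := by
      ext i j
      rw [Matrix.of_apply, hE', Matrix.one_apply]
    rw [h1, Matrix.det_one]
  have hα' : IsAlgebraic (upF K' L) α := alg_up hα
  have htop' : ∀ z : K', ∃ p : Polynomial K, z = Polynomial.aeval α p := by
    intro z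
    have h1 : z ∈ IntermediateField.adjoin K {α} := by
      rw [htop]
      trivial
    have h2 : z ∈ (IntermediateField.adjoin K {α}).toSubalgebra := h1
    rw [IntermediateField.adjoin_simple_toSubalgebra_of_isAlgebraic
      (Algebra.IsAlgebraic.isAlgebraic α), Algebra.adjoin_singleton_eq_range_aeval] at h2
    obtain ⟨p, hp⟩ := h2
    exact ⟨p, hp.symm⟩
  refine push hm hL hα' htop' (θ' := fun b G => (Matrix.of fun i j => G i ((y j : M) : K') :
    Matrix (Fin e) (Fin e) K').det ^ m * ((ω b E : M) : K'))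
    (fun b => fib_of_sub hN' (upF K' L) M hM (hω b).1 (fun u hu D hD => ?_) hy hE _) ⟨E', ?_, ?_⟩
  · exact (hω b).2.2 u hu id D hD
  · change (Matrix.of fun i j => E' i ((y j : M) : K') : Matrix (Fin e) (Fin e) K').det ^ m * _ ≠ 0
    rw [hdet, one_pow, one_mul]
    intro h0
    exact hW0 (Subtype.ext h0)
  · have h1 := ind_up (upF K' L) M hU hM hind hdom
    convert h1 using 1
    funext i
    simp only [hdet, one_pow, one_mul]
    rfl

end

end Pool.Agent.X180.Iso
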