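import Mathlib

/-!
Subfields which are free over the base.
-/

set_option autoImplicit false
set_option linter.overlappingInstances false

open IntermediateField

namespace Pool.Agent.X180.Iso

variable {k K : Type} [Field k] [Field K] [Algebra k K]

/-- the relative algebraic closure of a subfield, as a field over the constants -/
noncomputable def Acl (T : IntermediateField k K) : IntermediateField k K :=
  (algebraicClosure T K).restrictScalars k

theorem mem_acl {T : IntermediateField k K} {z : K} : z ∈ Acl T ↔ IsAlgebraic T z := by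
  unfold Acl
  rw [mem_restrictScalars, mem_algebraicClosure_iff]

theorem le_acl (T : IntermediateField k K) : T ≤ Acl T := fun z hz => by
  rw [mem_acl]
  exact isAlgebraic_algebraMap (⟨z, hz⟩ : T)

theorem acl_acl {T : IntermediateField k K} {z : K} (h : IsAlgebraic (Acl T) z) : z ∈ Acl T := by
  rw [mem_acl]
  have h1 : IsIntegral (algebraicClosure T K) z := h.isIntegral
  exact (isIntegral_trans z h1).isAlgebraic

theorem alg_mono {S T : IntermediateField k K} (h : S ≤ T) {z : K} (hz : IsAlgebraic S z) :
    IsAlgebraic T z := by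
  let i : S →+* T := (inclusion h).toRingHom
  exact hz.ringHom_of_comp_eq i (RingHom.id K) i.injective rfl

/-- every element is algebraic over `T` if this holds for generators up to algebraic elements -/
theorem top_of_gen {T G : IntermediateField k K} (hG : ∀ z ∈ G, IsAlgebraic T z)
    (hK : ∀ z : K, IsAlgebraic G z) (z : K) : IsAlgebraic T z := by
  have h1 : G ≤ Acl T := fun z hz => mem_acl.2 (hG z hz)
  exact mem_acl.1 (acl_acl (alg_mono h1 (hK z)))

/-- **A transcendence basis of `M` is one of `K` over `U`.** -/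
theorem basis_up (U M : IntermediateField k K) {e : ℕ} (he : Algebra.trdeg U K = e)
    {y : Fin e → M} (hy : IsTranscendenceBasis k y)
    (hdom : ∀ z : K, IsAlgebraic (adjoin k ((U : Set K) ∪ M)) z) :
    IsTranscendenceBasis U (fun j => (y j : K)) := by
  classical
  obtain ⟨T, hT⟩ : ∃ T : IntermediateField k K, T = adjoin k ((U : Set K) ∪
      Set.range fun j => (y j : K)) := ⟨_, rfl⟩
  have hUT : U ≤ T := by
    rw [hT]
    exact fun z hz => subset_adjoin _ _ (Or.inl hz)
  have hMT : ∀ z ∈ M, IsAlgebraic T z := by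
    intro z hz
    have h1 : IsAlgebraic (Algebra.adjoin k (Set.range y)) (⟨z, hz⟩ : M) :=
      hy.isAlgebraic.isAlgebraic _
    have h2 : IsAlgebraic (adjoin k (Set.range y)) (⟨z, hz⟩ : M) :=
      (IntermediateField.isAlgebraic_adjoin_iff_top.2 ⟨fun w => hy.isAlgebraic.isAlgebraic w⟩).isAlgebraic _
    have h3 : ∀ w ∈ adjoin k (Set.range y), (w : K) ∈ T := by
      intro w hw
      have h4 : (w : K) ∈ (adjoin k (Set.range y)).map M.val := ⟨w, hw, rfl⟩
      rw [adjoin_map] at h4
      have h5 : adjoin k (M.val '' Set.range y) ≤ T := by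
        rw [hT, adjoin_le_iff]
        rintro _ ⟨_, ⟨j, rfl⟩, rfl⟩
        exact subset_adjoin _ _ (Or.inr ⟨j, rfl⟩)
      exact h5 h4
    let i : adjoin k (Set.range y) →+* T :=
      ((M.val : M →ₐ[k] K).toRingHom.comp (adjoin k (Set.range y)).val.toRingHom).codRestrict
        T.toSubfield fun w => h3 w w.2
    exact h2.ringHom_of_comp_eq i M.val.toRingHom i.injective rfl
  have hall : ∀ z : K, IsAlgebraic T z := by
    refine top_of_gen (G := adjoin k ((U : Set K) ∪ M)) (fun z hz => ?_) hdom
    have h1 : adjoin k ((U : Set K) ∪ M) ≤ Acl T := by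
      rw [adjoin_le_iff]
      rintro w (hw | hw)
      · exact le_acl T (hUT hw)
      · exact mem_acl.2 (hMT w hw)
    exact mem_acl.1 (h1 hz)
  obtain ⟨W, hW⟩ : ∃ W : IntermediateField U K, W = adjoin U (Set.range fun j => (y j : K)) :=
    ⟨_, rfl⟩
  have hTW : ∀ z ∈ T, z ∈ W := by
    have h1 : T ≤ W.restrictScalars k := by
      rw [hT, adjoin_le_iff]
      rintro z (hz | ⟨j, rfl⟩)
      · exact W.algebraMap_mem ⟨z, hz⟩
      · rw [hW]
        exact subset_adjoin U _ ⟨j, rfl⟩
    exact h1
  have halg : Algebra.IsAlgebraic (Algebra.adjoin U (Set.range fun j => (y j : K))) K := by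
    rw [← IntermediateField.isAlgebraic_adjoin_iff_top, ← hW]
    refine ⟨fun z => ?_⟩
    let i : T →+* W := (T.val.toRingHom).codRestrict W.toSubfield fun w => hTW w w.2
    exact (hall z).ringHom_of_comp_eq i (RingHom.id K) i.injective rfl
  refine Algebra.IsAlgebraic.isTranscendenceBasis_of_le_trdeg_of_finite U (fun j => (y j : K)) ?_
  rw [he]
  simp

/-- Independent elements of `M` are independent over `U`. -/
theorem ind_up (U M : IntermediateField k K) {e lam : ℕ} (he : Algebra.trdeg U K = e)
    (hM : Algebra.trdeg k M = e) {f : Fin lam → M} (hf : AlgebraicIndependent k f)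
    (hdom : ∀ z : K, IsAlgebraic (adjoin k ((U : Set K) ∪ M)) z) :
    AlgebraicIndependent U (fun j => (f j : K)) := by
  classical
  obtain ⟨t, ht, htb⟩ := exists_isTranscendenceBasis_superset (R := k) (s := Set.range f)
    hf.coe_range
  have hcard := htb.cardinalMk_eq_trdeg
  rw [hM] at hcard
  obtain ⟨ε⟩ : Nonempty (Fin e ≃ t) := by
    rw [← Cardinal.eq, Cardinal.mk_fin]
    exact hcard.symm
  have hy : IsTranscendenceBasis k (fun j : Fin e => ((ε j : t) : M)) := htb.comp_equiv ε
  have h1 := (basis_up U M he hy hdom).1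
  have h2 := h1.comp (fun j : Fin lam => ε.symm ⟨f j, ht ⟨j, rfl⟩⟩) (by
    intro a b hab
    have h3 := ε.symm.injective hab
    exact hf.injective (congrArg Subtype.val h3))
  convert h2 using 1
  funext j
  simp

end Pool.Agent.X180.Iso
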