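import Pool.Agent.X180.Iso.Free
import Pool.Agent.TH585.SV.Uni
import Pool.Agent.W619.PQ.Defs

/-!
Families of uniruled varieties which are isotrivial.
-/

set_option autoImplicit false
set_option linter.overlappingInstances false

open IntermediateField Pool.Agent.W619.PQ

namespace Pool.Agent.X180.Iso

theorem trdeg_adjoin_le {k Ω : Type} [Field k] [Field Ω] [Algebra k Ω] (S : Set Ω) :
    Algebra.trdeg k (IntermediateField.adjoin k S) ≤ Cardinal.mk S := by
  classical
  obtain ⟨L, hL⟩ : ∃ L, L = IntermediateField.adjoin k S := ⟨_, rfl⟩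
  rw [← hL]
  obtain ⟨s, hs⟩ : ∃ s : Set L, ∀ x : L, x ∈ s ↔ (x : Ω) ∈ S :=
    ⟨{x : L | (x : Ω) ∈ S}, fun _ => Iff.rfl⟩
  have h2 : IntermediateField.adjoin k s = ⊤ := by
    rw [eq_top_iff]
    rintro ⟨x, hx⟩ -
    have h2 : (IntermediateField.adjoin k s).map L.val = L := by
      rw [IntermediateField.adjoin_map]
      conv_rhs => rw [hL]
      congr 1
      ext z
      constructor
      · rintro ⟨b, hb, rfl⟩
        exact (hs b).1 hb
      · intro hz
        have hzL : z ∈ L := by rw [hL]; exact IntermediateField.subset_adjoin _ _ hz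
        exact ⟨⟨z, hzL⟩, (hs _).2 hz, rfl⟩
    have h3 : x ∈ (IntermediateField.adjoin k s).map L.val := by rw [h2]; exact hx
    obtain ⟨w, hw, hwx⟩ := h3
    have h4 : w = ⟨x, hx⟩ := Subtype.ext hwx
    rw [← h4]
    exact hw
  have h3 : Algebra.IsAlgebraic (Algebra.adjoin k s) L := by
    rw [← IntermediateField.isAlgebraic_adjoin_iff_top, h2]
    exact ⟨fun x => isAlgebraic_algebraMap (⟨x, trivial⟩ : (⊤ : IntermediateField k L))⟩
  have h4 := Algebra.IsAlgebraic.trdeg_le_cardinalMk k s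
  have h6 : Cardinal.mk s ≤ Cardinal.mk S := by
    have h7 : Function.Injective (fun x : s => (⟨(x : L), (hs _).1 x.2⟩ : S)) := by
      intro a b hab
      have h8 := congrArg Subtype.val hab
      exact Subtype.ext (Subtype.ext h8)
    exact Cardinal.mk_le_of_injective h7
  exact h4.trans h6

theorem trdeg_acl {k K : Type} [Field k] [Field K] [Algebra k K] (T : IntermediateField k K) :
    Algebra.trdeg k (Acl T) = Algebra.trdeg k T := by
  have h3 : Algebra.trdeg T (algebraicClosure T K) = 0 := trdeg_eq_zero_iff.2 inferInstance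
  have h2 : Algebra.trdeg k (Acl T) = Algebra.trdeg k (algebraicClosure T K) := rfl
  rw [h2, ← _root_.trdeg_add_eq k T (A := algebraicClosure T K), h3, add_zero]

theorem alg_image {k A Ω : Type} [Field k] [Field A] [Field Ω] [Algebra k A] [Algebra k Ω]
    (j : A →ₐ[k] Ω) {u : Set A} (hu : IsTranscendenceBasis k ((↑) : u → A)) {S : Set Ω}
    (hS : ∀ a ∈ u, j a ∈ S) (z : A) : j z ∈ Acl (adjoin k S) := by
  have h0 : Set.range ((↑) : u → A) = u := Subtype.range_coe
  have h2 : IsAlgebraic (adjoin k u) z := by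
    have h3 : Algebra.IsAlgebraic (Algebra.adjoin k u) A := by
      have := hu.isAlgebraic
      rwa [h0] at this
    exact (IntermediateField.isAlgebraic_adjoin_iff_top.2 h3).isAlgebraic _
  have h3 : ∀ w ∈ adjoin k u, j w ∈ adjoin k S := by
    intro w hw
    have h4 : j w ∈ (adjoin k u).map j := ⟨w, hw, rfl⟩
    rw [adjoin_map] at h4
    have h5 : adjoin k (j '' u) ≤ adjoin k S := by
      rw [adjoin_le_iff]
      rintro _ ⟨a, ha, rfl⟩
      exact subset_adjoin _ _ (hS a ha)
    exact h5 h4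
  let i : adjoin k u →+* adjoin k S :=
    (j.toRingHom.comp (adjoin k u).val.toRingHom).codRestrict (adjoin k S).toSubfield
      fun w => h3 w w.2
  exact mem_acl.2 (h2.ringHom_of_comp_eq i j.toRingHom i.injective rfl)

/-- **Isotrivial families of uniruled varieties are uniruled.** -/
theorem unir_up {K : Type} [Field K] [Algebra ℂ K] [Algebra.EssFiniteType ℂ K]
    (U M : IntermediateField ℂ K) {d e : ℕ} (hK : Algebra.trdeg ℂ K = (d + e : ℕ))
    (hU : Algebra.trdeg ℂ U = d) (hM : Algebra.trdeg ℂ M = e) (hunir : IsUniruled ℂ M e)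
    (hgen : ∀ z : K, z ∈ adjoin ℂ ({a : K | IsAlgebraic U a} ∪ M)) : IsUniruled ℂ K (d + e) := by
  classical
  obtain ⟨M0, _, _, hM0, hM0e, ⟨φ⟩⟩ := hunir
  let iA : Algebra M (RatFunc M0) := φ.toRingHom.toAlgebra
  have htow : IsScalarTower ℂ M (RatFunc M0) := IsScalarTower.of_algebraMap_eq fun c =>
    (φ.commutes c).symm
  have htr : Algebra.trdeg ℂ (RatFunc M0) = e := by
    rw [Pool.Agent.TH585.SV.trdeg_ratFunc, hM0e]
  have hz : Algebra.trdeg M (RatFunc M0) = 0 := by
    have h1 := _root_.trdeg_add_eq ℂ M (A := RatFunc M0)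
    rw [hM, htr] at h1
    exact (Cardinal.add_eq_left_iff.1 h1).elim (fun h2 => by
      exact absurd ((le_max_left _ _).trans_lt (h2.trans_lt (Cardinal.natCast_lt_aleph0)))
        (lt_irrefl _)) id
  have halg : Algebra.IsAlgebraic M (RatFunc M0) := trdeg_eq_zero_iff.1 hz
  let Ω := AlgebraicClosure K
  let ψ : RatFunc M0 →ₐ[M] Ω := IsAlgClosed.lift
  let ψ' : RatFunc M0 →ₐ[ℂ] Ω := ψ.restrictScalars ℂ
  let jK : K →ₐ[ℂ] Ω := IsScalarTower.toAlgHom ℂ K Ω
  -- the base
  obtain ⟨u, hu⟩ := exists_isTranscendenceBasis ℂ U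
  obtain ⟨v, hv⟩ := exists_isTranscendenceBasis ℂ M0
  obtain ⟨S, hS⟩ : ∃ S : Set Ω, S = (Set.range fun a : u => jK ((a : U) : K)) ∪
      Set.range fun a : v => ψ' (algebraMap M0 (RatFunc M0) (a : M0)) := ⟨_, rfl⟩
  have hcard : Cardinal.mk S + 1 ≤ (d + e : ℕ) := by
    have h1 : Cardinal.mk S ≤ Cardinal.mk u + Cardinal.mk v := by
      rw [hS]
      exact (Cardinal.mk_union_le _ _).trans (add_le_add Cardinal.mk_range_le Cardinal.mk_range_le)
    have h2 := hu.cardinalMk_eq_trdeg
    have h3 := hv.cardinalMk_eq_trdeg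
    rw [h2, h3, hU] at h1
    calc Cardinal.mk S + 1 ≤ (d : Cardinal) + Algebra.trdeg ℂ M0 + 1 := by gcongr
      _ = (d + e : ℕ) := by
        rw [add_assoc, hM0e]
        push_cast
        rfl
  have hUS : ∀ z : U, (jK.comp U.val) z ∈ Acl (adjoin ℂ S) :=
    alg_image (jK.comp U.val) hu fun a ha => by
      rw [hS]
      exact Or.inl ⟨⟨a, ha⟩, rfl⟩
  have hM0S : ∀ z : M0, (ψ'.comp (IsScalarTower.toAlgHom ℂ M0 (RatFunc M0))) z ∈
      Acl (adjoin ℂ S) :=
    alg_image (ψ'.comp (IsScalarTower.toAlgHom ℂ M0 (RatFunc M0))) hv fun a ha => by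
      rw [hS]
      exact Or.inr ⟨⟨a, ha⟩, rfl⟩
  have hUa : ∀ z : K, IsAlgebraic U z → jK z ∈ Acl (adjoin ℂ S) := by
    intro z hz
    refine acl_acl ?_
    let i : U →+* Acl (adjoin ℂ S) :=
      ((jK.comp U.val).toRingHom).codRestrict (Acl (adjoin ℂ S)).toSubfield fun w => hUS w
    exact hz.ringHom_of_comp_eq i jK.toRingHom i.injective rfl
  obtain ⟨W, hW⟩ : ∃ W : IntermediateField ℂ Ω,
      W = adjoin ℂ ((Acl (adjoin ℂ S) : Set Ω) ∪ {ψ' RatFunc.X}) := ⟨_, rfl⟩
  have hWA : ∀ z ∈ Acl (adjoin ℂ S), z ∈ W := fun z hz => by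
    rw [hW]
    exact subset_adjoin _ _ (Or.inl hz)
  have hWX : ψ' RatFunc.X ∈ W := by
    rw [hW]
    exact subset_adjoin _ _ (Or.inr rfl)
  have hpol : ∀ p : Polynomial M0, ψ' (algebraMap (Polynomial M0) (RatFunc M0) p) ∈ W := by
    intro p
    induction p using Polynomial.induction_on' with
    | add p q hp hq =>
      rw [map_add, map_add]
      exact add_mem hp hq
    | monomial n a =>
      rw [← Polynomial.C_mul_X_pow_eq_monomial, map_mul, map_mul, map_pow, RatFunc.algebraMap_X,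
        map_pow]
      refine mul_mem (hWA _ ?_) (pow_mem hWX n)
      exact hM0S a
  have hrat : ∀ z : RatFunc M0, ψ' z ∈ W := by
    intro z
    rw [← RatFunc.num_div_denom z, map_div₀]
    exact div_mem (hpol _) (hpol _)
  refine Pool.Agent.TH585.SV.unir_of_adjoin (Ω := Ω) hK (Acl (adjoin ℂ S)) (ψ' RatFunc.X) ?_
    fun g => ?_
  · rw [trdeg_acl]
    exact (add_le_add_left (trdeg_adjoin_le S) 1).trans hcard
  · rw [← hW]
    have h1 : (⊤ : IntermediateField ℂ K) ≤ W.comap jK := by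
      intro z _
      have h2 : adjoin ℂ ({a : K | IsAlgebraic U a} ∪ M) ≤ W.comap jK := by
        rw [adjoin_le_iff]
        rintro a (ha | ha)
        · exact hWA _ (hUa a ha)
        · have h3 : jK a = ψ' (φ ⟨a, ha⟩) := by
            have h4 := ψ.commutes ⟨a, ha⟩
            exact h4.symm
          change jK a ∈ W
          rw [h3]
          exact hrat _
      exact h2 (hgen z)
    exact h1 (trivial : g ∈ (⊤ : IntermediateField ℂ K))

end Pool.Agent.X180.Iso
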