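import Pool.Agent.X180.Iso.Fib
import Pool.Agent.X180.Iso.Unir
import Pool.Agent.TH466.QG.Low

/-!
Isotrivial fibrations over bases with highly ramified linear systems.
-/

set_option autoImplicit false
set_option linter.overlappingInstances false

open FF Pool.Agent.W602.GT Pool.Agent.W603.LV Pool.Agent.W619.PQ Pool.Agent.W619.Y
open Pool.Agent.TH585.SV Pool.Agent.Y172 Pool.Agent.Y191

namespace Pool.Agent.X180.Iso

variable {d e n q c : ℕ} {K K' : Type} [Field K] [Field K'] [Algebra ℂ K] [Algebra ℂ K']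
  [Algebra K K'] [IsScalarTower ℂ K K']

/-- the base change is finite -/
theorem fin_of_top {L : IntermediateField ℂ K} {α : K'} (hα : IsAlgebraic L α)
    (htop : IntermediateField.adjoin K {α} = ⊤) : FiniteDimensional K K' := by
  have h0 : IsAlgebraic K α := by
    let i : L →+* K := L.val.toRingHom
    exact hα.ringHom_of_comp_eq i (RingHom.id K') i.injective rfl
  have h1 : FiniteDimensional K (IntermediateField.adjoin K {α}) :=
    IntermediateField.adjoin.finiteDimensional h0.isIntegral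
  rw [htop] at h1
  exact Module.Finite.of_surjective (⊤ : IntermediateField K K').val.toLinearMap
    fun z => ⟨⟨z, trivial⟩, rfl⟩

theorem kod_of_pairs {w κ : ℕ} (h : ∃ N : ℕ, 0 < N ∧
    ∃ ω : Fin (κ + 1) → (Fin w → Derivation ℂ K K) → K,
      (∀ j, Pool.Agent.TH766.MC.PairSec w {P | True} (fun _ => 0) N (ω j)) ∧
      ∃ D, ω 0 D ≠ 0 ∧ AlgebraicIndependent ℂ (fun i : Fin κ => ω i.succ D / ω 0 D)) :
    Pool.Agent.W602.GT.KodGe ℂ K w (fun _ => False) κ := by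
  obtain ⟨N, hN, ω, h5, h6⟩ := h
  have hreg : ∀ j (P : Place ℂ K), Divisorial w P → RegAt P (ω j) := by
    intro j P hPd D hD
    rcases (h5 j).2 P trivial hPd D hD with h7 | h7
    · exact Or.inl h7
    · right
      have h8 : (0 : ℝ) ≤ (P.ord (ω j D) : ℝ) := by simpa using h7
      exact_mod_cast h8
  exact ⟨N, hN, ω, fun j => ⟨(h5 j).1, fun P hP D hD =>
    hreg j P hP D fun i => Pool.Agent.TH466.QG.derReg_of_log (hD i), fun P hP _ => hreg j P hP⟩, h6⟩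

/-- **Kodaira dimension.** -/
theorem iso_kod {lam : ℕ} (hd : 1 ≤ d) (hdn : d ≤ n)
    (hK : Algebra.trdeg ℂ K = (d + e : ℕ)) {V : Submodule ℂ K}
    (hV : Algebra.trdeg ℂ (rf V) = d) {φ : Fin q → K} (hφ0 : ∀ i, φ i ≠ 0)
    (hφ : Submodule.span ℂ (Set.range φ) = V) {γ : Fin q → Fin c} (hγ : Dcp n V φ γ)
    (hc : ∀ γ' : Fin q → Fin (c + 1), ¬ Dcp n V φ γ') {R : ℕ}
    (hR : R + c = n + 3 ∨
      (c = 1 ∧ (∃ τ : Fin (n + 3) → Fin q, ∀ i j, i ≠ j → ∀ t : ℂ, φ (τ i) ≠ t • φ (τ j)) ∧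
        R = n + 1)) {s : ℝ}
    (hs : (R : ℝ) * (((n : ℝ) - d + 1) * ((n : ℝ) - d + 2)) ≤ 2 * s)
    (h : ∀ P : Place ℂ K, Divisorial (d + e) P → ∀ a : ℤ, (∀ f ∈ V, f = 0 ∨ a ≤ P.ord f) →
      (∃ f ∈ V, f ≠ 0 ∧ P.ord f = a) → (∃ i, P.ord (φ i) ≠ a) →
      ∃ i i', γ i' = γ i ∧ s ≤ ((P.ord (φ i) - P.ord (φ i') : ℤ) : ℝ))
    (hθ : ∃ m : ℕ, 0 < m ∧ ∃ θ : Fin (lam + 1) → (Fin e → Derivation (rf V) K K) → K,
      (∀ b, FibSec (d + e) m {P | True} (fun _ => 0) (rf V) (θ b)) ∧ ∃ G, θ 0 G ≠ 0 ∧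
        AlgebraicIndependent (rf V) (fun i : Fin lam => θ i.succ G / θ 0 G)) :
    Pool.Agent.W602.GT.KodGe ℂ K (d + e) (fun _ => False) lam ∧
    ((R : ℝ) * (((n : ℝ) - d + 1) * ((n : ℝ) - d + 2)) < 2 * s →
        ∀ κ : ℕ, κ + c = d + 1 →
          Pool.Agent.W602.GT.KodGe ℂ K (d + e) (fun _ => False) (κ + lam)) := by
  obtain ⟨m, hm, θ, hθ, hne⟩ := hθ
  obtain ⟨k, rfl⟩ := Nat.exists_eq_add_of_le hdn
  have e1 : ((d + k : ℕ) : ℝ) - d = (k : ℝ) := by
    push_cast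
    ring
  rw [e1] at hs ⊢
  obtain ⟨h3, h4⟩ := Pool.Agent.TH585.SV.lin_fib (k := k) (lam := lam) hd rfl hK (V := V) hV hφ0 hφ
    hγ hc hR {P | True} (fun _ => 0) (fun _ => 0) (fun _ => 0) (fun _ _ => le_rfl)
    (fun _ _ => by simp) hs (fun P _ hPd a ha hb hc => by
      obtain ⟨i, i', h5, h6⟩ := h P hPd a ha hb hc
      exact ⟨i, i', h5, by simpa using h6⟩) hm (θ := θ) hθ hne
  exact ⟨kod_of_pairs h3, fun hlt κ hκ => kod_of_pairs (h4 κ hκ hlt)⟩

theorem alg_acl {L : IntermediateField ℂ K} (M : IntermediateField ℂ K') {z : K'}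
    (hz : IsAlgebraic (IntermediateField.adjoin ℂ ({a : K' | IsAlgebraic L a} ∪ M)) z) :
    IsAlgebraic (IntermediateField.adjoin ℂ ((upF K' L : Set K') ∪ M)) z := by
  obtain ⟨T, hT⟩ : ∃ T : IntermediateField ℂ K',
      T = IntermediateField.adjoin ℂ ((upF K' L : Set K') ∪ M) := ⟨_, rfl⟩
  rw [← hT]
  have hU : upF K' L ≤ T := by
    rw [hT]
    exact fun w hw => IntermediateField.subset_adjoin _ _ (Or.inl hw)
  have h1 : IntermediateField.adjoin ℂ ({a : K' | IsAlgebraic L a} ∪ M) ≤ Acl T := by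
    rw [IntermediateField.adjoin_le_iff]
    rintro w (hw | hw)
    · exact mem_acl.2 (alg_mono hU (alg_up hw))
    · refine le_acl T ?_
      rw [hT]
      exact IntermediateField.subset_adjoin _ _ (Or.inr hw)
  exact mem_acl.1 (acl_acl (alg_mono h1 hz))

theorem trdeg_rel {L : IntermediateField ℂ K} (hK : Algebra.trdeg ℂ K = (d + e : ℕ))
    (hL : Algebra.trdeg ℂ L = d) : Algebra.trdeg L K = e := by
  have h1 := _root_.trdeg_add_eq ℂ L (A := K)
  rw [hK, hL] at h1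
  push_cast at h1
  exact Cardinal.eq_of_add_eq_add_left h1 Cardinal.natCast_lt_aleph0

theorem trdeg_upF {L : IntermediateField ℂ K} (hL : Algebra.trdeg ℂ L = d) :
    Algebra.trdeg ℂ (upF K' L) = d := by
  rw [← hL]
  exact (L.equivMap (IsScalarTower.toAlgHom ℂ K K')).trdeg_eq.symm

/-- **Uniruledness.** -/
theorem iso_unir {L : IntermediateField ℂ K} [Algebra.EssFiniteType ℂ K]
    (hK : Algebra.trdeg ℂ K = (d + e : ℕ)) (hL : Algebra.trdeg ℂ L = d) {α : K'}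
    (hα : IsAlgebraic L α) (htop : IntermediateField.adjoin K {α} = ⊤)
    (M : IntermediateField ℂ K') (hM : Algebra.trdeg ℂ M = e) (hunir : IsUniruled ℂ M e)
    (hgen : IntermediateField.adjoin ℂ ({a : K' | IsAlgebraic L a} ∪ M) = ⊤) :
    IsUniruled ℂ K (d + e) := by
  have hfin := fin_of_top hα htop
  have hess : Algebra.EssFiniteType ℂ K' := Algebra.EssFiniteType.comp ℂ K K'
  have hK' : Algebra.trdeg ℂ K' = (d + e : ℕ) := by
    have h1 : Algebra.trdeg K K' = 0 := trdeg_eq_zero_iff.2 inferInstance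
    rw [← hK, ← _root_.trdeg_add_eq ℂ K (A := K'), h1, add_zero]
  have h1 : IsUniruled ℂ K' (d + e) := by
    refine unir_up (upF K' L) M hK' (trdeg_upF hL) hM hunir fun z => ?_
    have h2 : z ∈ IntermediateField.adjoin ℂ ({a : K' | IsAlgebraic L a} ∪ M) := by
      rw [hgen]
      trivial
    refine IntermediateField.adjoin.mono ℂ _ _ ?_ h2
    rintro w (hw | hw)
    · exact Or.inl (alg_up hw)
    · exact Or.inr hw
  obtain ⟨M', _, _, h2, h3, ⟨f⟩⟩ := h1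
  exact ⟨M', inferInstance, inferInstance, h2, h3, ⟨f.comp (IsScalarTower.toAlgHom ℂ K K')⟩⟩

end Pool.Agent.X180.Iso
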